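import Pool.Agent.Helper44_MinRank.Final

/-!
Over every field there is a partial `9 × 8` matrix `A` with
`tmr(A) = fmr(A) = 3 < 4 = mr(A)`, so the proposed dichotomy
(`tmr < fmr < mr` or `tmr = fmr = mr`) fails over every field.
The partial matrix encodes the commutativity of multiplication (a Pappus type configuration):
a rank `3` completion would force `xy - yx = 1` for scalars, while `A ⊗ I₂` has a completion of
rank `6` because the relation can be solved by `2 × 2` matrices.
-/

namespace Pool.Agent.Results.MP_f8e91b_al.Disproof

open Pool.Agent.Helper44_MinRank

theorem result (F : Type*) [Field F] :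
    ∃ A : PMat F 9 8, tmr A = 3 ∧ fmr A = 3 ∧ mr A = 4 :=
  main F

end Pool.Agent.Results.MP_f8e91b_al.Disproof
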